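import Pool.Agent.H71.CR.Stmt2

/-!
# GM2: the structures with at most `m` germs at every direction form a Borel set
-/

set_option autoImplicit false

open Set Pool.Agent.TK Pool.Agent.H71.VK

namespace Pool.Agent.CR

private lemma h16_pl (p : List (ℕ × ℕ)) : Measurable fun c : Lf => Pl c c p := by
  unfold Pl
  exact Measurable.forall fun q => Measurable.imp measurable_const (measurableSet_setOfPred.1
    (measurableSet_eq_fun (measurable_pi_apply _) (measurable_pi_apply _)))

private lemma h16_ct (S : List ℕ) (W Z : Set ℕ) : Measurable fun c : Lf => Ct c S W Z := by
  unfold Ct
  exact Measurable.forall fun p => Measurable.imp measurable_const (Measurable.imp (h16_pl _)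
    (Measurable.forall fun D => Measurable.imp measurable_const (h16_pl _)))

private lemma h16_so (Y : Set ℕ) (x x' : List ℕ) : Measurable fun c : Lf => SO c Y x x' := by
  unfold SO
  exact Measurable.and measurable_const
    (Measurable.forall fun D => Measurable.imp measurable_const (h16_pl _))

theorem pf_GM2 : T_GM2 := by
  intro n m
  refine measurableSet_setOfPred.2 ?_
  unfold AtQ
  exact Measurable.forall fun f => Measurable.imp measurable_const (Measurable.imp measurable_const
    (Measurable.exists fun N => Measurable.exists fun L => Measurable.and measurable_const
      (Measurable.forall fun M => Measurable.exists fun K => Measurable.and measurable_const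
        (Measurable.and (Measurable.forall fun k => Measurable.imp measurable_const
          (Measurable.and measurable_const (Measurable.and (h16_ct _ _ _) (h16_so _ _ _))))
          measurable_const))))

end Pool.Agent.CR
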